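import Pool.Agent.V5LSS.Reg

/-!
# Prime ideals obtained by adding one element `∏ z + h`
-/

namespace Pool.Agent.V5LSS

open MvPolynomial

section key

variable {k : Type*} [Field k] {σ : Type*}

lemma hom_agree {B : Type*} [CommRing B] (φ ψ : MvPolynomial σ k →+* B)
    (hC : ∀ r, φ (C r) = ψ (C r)) (s : Set σ) (h : ∀ x ∈ s, φ (X x) = ψ (X x))
    (p : MvPolynomial σ k) (hp : p ∈ supported k s) : φ p = ψ p := by
  rw [mem_supported] at hp
  apply hom_congr_vars _ _ rfl
  · ext r
    exact hC r
  · intro i hi _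
    exact h i (hp hi)

/-- substitution of a single variable -/
noncomputable def subst [DecidableEq σ] (k : Type*) [Field k] (z : σ) (c : MvPolynomial σ k) :
    MvPolynomial σ k →+* MvPolynomial σ k :=
  eval₂Hom C (fun x => if x = z then c else X x)

lemma subst_fix [DecidableEq σ] (z : σ) (c : MvPolynomial σ k) (p : MvPolynomial σ k)
    (hp : p ∈ supported k ({z}ᶜ : Set σ)) : subst k z c p = p := by
  have := hom_agree (subst k z c) (RingHom.id _) (fun r => by simp [subst]) ({z}ᶜ : Set σ)
    (fun x hx => by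
      have : x ≠ z := hx
      simp [subst, this]) p hp
  simpa using this

lemma subst_X [DecidableEq σ] (z : σ) (c : MvPolynomial σ k) : subst k z c (X z) = c := by
  simp [subst]

lemma subst_X_ne [DecidableEq σ] (z x : σ) (c : MvPolynomial σ k) (h : x ≠ z) :
    subst k z c (X x) = X x := by
  simp [subst, h]

variable [DecidableEq σ] (Z : Finset σ) (G : Set (MvPolynomial σ k))
  (hG : ∀ g ∈ G, g ∈ supported k ((Z : Set σ)ᶜ))

include hG

lemma span_le_subst (z : σ) (hz : z ∈ Z) (c : MvPolynomial σ k) :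
    Ideal.span G ≤ (Ideal.span G).comap (subst k z c) := by
  rw [Ideal.span_le]
  intro g hg
  show subst k z c g ∈ Ideal.span G
  rw [subst_fix z c g]
  · exact Ideal.subset_span hg
  · refine supported_mono ?_ (hG g hg)
    intro x hx
    rw [Set.mem_compl_iff, Set.mem_singleton_iff]
    rintro rfl
    exact hx hz

lemma X_notMem (hP : (Ideal.span G).IsPrime) (z : σ) (hz : z ∈ Z) :
    (X z : MvPolynomial σ k) ∉ Ideal.span G := by
  intro h
  have := span_le_subst Z G hG z hz 1 h
  rw [Ideal.mem_comap, subst_X] at this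
  exact hP.ne_top ((Ideal.eq_top_iff_one _).mpr this)

lemma mem_sup_X (z : σ) (hz : z ∈ Z) (x : MvPolynomial σ k) :
    (∃ p ∈ Ideal.span G, ∃ y, x = p + X z * y) ↔ subst k z 0 x ∈ Ideal.span G := by
  constructor
  · rintro ⟨p, hp, y, rfl⟩
    rw [map_add, map_mul, subst_X, zero_mul, add_zero]
    exact span_le_subst Z G hG z hz 0 hp
  · intro h
    refine ⟨_, h, ?_⟩
    -- x - subst x is divisible by X z
    suffices hs : ∃ y, x - subst k z 0 x = X z * y by
      obtain ⟨y, hy⟩ := hs
      exact ⟨y, by rw [← hy]; ring⟩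
    clear h
    induction x using MvPolynomial.induction_on with
    | C a => exact ⟨0, by simp [subst]⟩
    | add p q hp hq =>
      obtain ⟨y, hy⟩ := hp
      obtain ⟨y', hy'⟩ := hq
      refine ⟨y + y', ?_⟩
      rw [map_add, mul_add, ← hy, ← hy']
      ring
    | mul_X p w hp =>
      obtain ⟨y, hy⟩ := hp
      by_cases hw : w = z
      · subst hw
        refine ⟨p, ?_⟩
        rw [map_mul, subst_X, mul_zero, sub_zero, mul_comm]
      · refine ⟨y * X w, ?_⟩
        rw [map_mul, subst_X_ne z w 0 hw, ← mul_assoc, ← hy]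
        ring

/-- non-zero-divisor modulo a product of variables -/
lemma nzd (hP : (Ideal.span G).IsPrime) (h : MvPolynomial σ k)
    (hh : h ∈ supported k ((Z : Set σ)ᶜ)) (hhP : h ∉ Ideal.span G) (s : Finset σ) (hs : s ⊆ Z) :
    ∀ x, (∃ p ∈ Ideal.span G, ∃ y, x * h = p + (∏ z ∈ s, X z) * y) →
      ∃ p ∈ Ideal.span G, ∃ y, x = p + (∏ z ∈ s, X z) * y := by
  induction s using Finset.induction_on with
  | empty =>
    intro x _
    exact ⟨0, Submodule.zero_mem _, x, by simp⟩
  | insert z s hzs ih =>
    intro x hx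
    have hz : z ∈ Z := hs (Finset.mem_insert_self z s)
    have hsZ : s ⊆ Z := fun w hw => hs (Finset.mem_insert_of_mem hw)
    obtain ⟨p, hp, y, hxy⟩ := hx
    rw [Finset.prod_insert hzs] at hxy
    have h1 : subst k z 0 (x * h) ∈ Ideal.span G :=
      (mem_sup_X Z G hG z hz (x * h)).mp ⟨p, hp, (∏ z ∈ s, X z) * y, by rw [hxy]; ring⟩
    have hfix : subst k z 0 h = h := by
      apply subst_fix
      refine supported_mono ?_ hh
      intro w hw
      rw [Set.mem_compl_iff, Set.mem_singleton_iff]
      rintro rfl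
      exact hw hz
    rw [map_mul, hfix] at h1
    have h2 : subst k z 0 x ∈ Ideal.span G := (hP.mem_or_mem h1).resolve_right hhP
    obtain ⟨p', hp', x', rfl⟩ := (mem_sup_X Z G hG z hz x).mpr h2
    have h3 : X z * (x' * h - (∏ z ∈ s, X z) * y) ∈ Ideal.span G := by
      have : X z * (x' * h - (∏ z ∈ s, X z) * y) = p - p' * h := by
        linear_combination hxy
      rw [this]
      exact Submodule.sub_mem _ hp (Ideal.mul_mem_right _ _ hp')
    have h4 := (hP.mem_or_mem h3).resolve_left (X_notMem Z G hG hP z hz)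
    obtain ⟨p'', hp'', y'', hy''⟩ := ih hsZ x' ⟨_, h4, y, by ring⟩
    refine ⟨p' + X z * p'', Submodule.add_mem _ hp' (Ideal.mul_mem_left _ _ hp''), y'', ?_⟩
    rw [Finset.prod_insert hzs, hy'']
    ring

lemma nzd_pow (hP : (Ideal.span G).IsPrime) (h : MvPolynomial σ k)
    (hh : h ∈ supported k ((Z : Set σ)ᶜ)) (hhP : h ∉ Ideal.span G) (s : Finset σ) (hs : s ⊆ Z)
    (m : ℕ) : ∀ x, (∃ p ∈ Ideal.span G, ∃ y, x * h ^ m = p + (∏ z ∈ s, X z) * y) →
      ∃ p ∈ Ideal.span G, ∃ y, x = p + (∏ z ∈ s, X z) * y := by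
  induction m with
  | zero => intro x hx; simpa using hx
  | succ m ih =>
    rintro x ⟨p, hp, y, hxy⟩
    apply ih
    apply nzd Z G hG hP h hh hhP s hs
    exact ⟨p, hp, y, by rw [← hxy]; ring⟩

omit hG in
/-- every polynomial is a polynomial in `X z₀` with coefficients not involving `z₀` -/
lemma exists_rep (z₀ : σ) (g : MvPolynomial σ k) :
    ∃ N : ℕ, ∃ u : ℕ → MvPolynomial σ k, (∀ i, u i ∈ supported k ({z₀}ᶜ : Set σ)) ∧
      g = ∑ i ∈ Finset.range N, u i * X z₀ ^ i := by
  obtain ⟨Θ, hΘC, hΘX⟩ : ∃ Θ : MvPolynomial σ k →+* Polynomial (MvPolynomial σ k),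
      (∀ r, Θ (C r) = Polynomial.C (C r)) ∧
      (∀ x, Θ (X x) = if x = z₀ then Polynomial.X else Polynomial.C (X x)) :=
    ⟨eval₂Hom (Polynomial.C.comp C) (fun x => if x = z₀ then Polynomial.X else Polynomial.C (X x)),
      fun r => by simp, fun x => by simp⟩
  have h1 : (Polynomial.evalRingHom (X z₀)).comp Θ = RingHom.id (MvPolynomial σ k) := by
    apply MvPolynomial.ringHom_ext
    · intro r
      simp [hΘC]
    · intro x
      rw [RingHom.comp_apply, hΘX]
      split_ifs with h
      · simp [h]
      · simp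
  have h2 : ∀ i, (Θ g).coeff i ∈ supported k ({z₀}ᶜ : Set σ) := by
    clear h1
    induction g using MvPolynomial.induction_on with
    | C a =>
      intro i
      rw [hΘC, Polynomial.coeff_C]
      split_ifs
      · exact Subalgebra.algebraMap_mem _ a
      · exact Subalgebra.zero_mem _
    | add p q hp hq =>
      intro i
      rw [map_add, Polynomial.coeff_add]
      exact Subalgebra.add_mem _ (hp i) (hq i)
    | mul_X p w hp =>
      intro i
      rw [map_mul, hΘX]
      split_ifs with hw
      · cases i with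
        | zero => rw [Polynomial.coeff_mul_X_zero]; exact Subalgebra.zero_mem _
        | succ i => rw [Polynomial.coeff_mul_X]; exact hp i
      · rw [Polynomial.coeff_mul_C]
        exact Subalgebra.mul_mem _ (hp i) (X_mem_supported.mpr hw)
  refine ⟨(Θ g).natDegree + 1, (Θ g).coeff, h2, ?_⟩
  have h3 := RingHom.congr_fun h1 g
  rw [RingHom.comp_apply, RingHom.id_apply] at h3
  rw [← Polynomial.eval_eq_sum_range]
  exact h3.symm

/-- **Key lemma.** Adding `∏ z + h` to a prime ideal which does not involve the variables `z`. -/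
theorem prime_sup (hP : (Ideal.span G).IsPrime) (hZ : Z.Nonempty) (h : MvPolynomial σ k)
    (hh : h ∈ supported k ((Z : Set σ)ᶜ)) (hhP : h ∉ Ideal.span G) :
    (Ideal.span G ⊔ Ideal.span {(∏ z ∈ Z, X z) + h}).IsPrime := by
  obtain ⟨z₀, hz₀⟩ := hZ
  set a : MvPolynomial σ k := ∏ z ∈ Z.erase z₀, X z with ha
  have hf : (∏ z ∈ Z, X z) + h = X z₀ * a + h := by
    rw [ha, Finset.mul_prod_erase _ _ hz₀]
  set f := (∏ z ∈ Z, X z) + h with hfdef
  have hsub : ((Z : Set σ)ᶜ) ⊆ ({z₀}ᶜ : Set σ) := by
    intro x hx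
    rw [Set.mem_compl_iff, Set.mem_singleton_iff]
    rintro rfl
    exact hx hz₀
  have haV : a ∈ supported k ({z₀}ᶜ : Set σ) := by
    rw [ha]
    apply Subalgebra.prod_mem
    intro z hz
    rw [X_mem_supported, Set.mem_compl_iff, Set.mem_singleton_iff]
    exact Finset.ne_of_mem_erase hz
  have hhV : h ∈ supported k ({z₀}ᶜ : Set σ) := supported_mono hsub hh
  have haP : a ∉ Ideal.span G := by
    rw [ha]
    intro hc
    obtain ⟨z, hz, hzP⟩ := (hP.prod_mem_iff).mp hc
    exact X_notMem Z G hG hP z (Finset.mem_of_mem_erase hz) hzP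
  -- the homomorphism to the fraction field of the quotient
  have : IsDomain (MvPolynomial σ k ⧸ Ideal.span G) := Ideal.Quotient.isDomain _
  let L := FractionRing (MvPolynomial σ k ⧸ Ideal.span G)
  let π : MvPolynomial σ k →+* L := (algebraMap _ L).comp (Ideal.Quotient.mk (Ideal.span G))
  have hπ : ∀ x, π x = 0 ↔ x ∈ Ideal.span G := by
    intro x
    show algebraMap _ L (Ideal.Quotient.mk (Ideal.span G) x) = 0 ↔ _
    rw [map_eq_zero_iff _ (IsFractionRing.injective _ L), Ideal.Quotient.eq_zero_iff_mem]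
  have hπa : π a ≠ 0 := fun hc => haP ((hπ a).mp hc)
  obtain ⟨φ, hφC, hφX⟩ : ∃ φ : MvPolynomial σ k →+* L, (∀ r, φ (C r) = π (C r)) ∧
      (∀ x, φ (X x) = if x = z₀ then - π h / π a else π (X x)) :=
    ⟨eval₂Hom (π.comp C) (fun x => if x = z₀ then - π h / π a else π (X x)),
      fun r => by simp, fun x => by simp⟩
  have hφV : ∀ p ∈ supported k ({z₀}ᶜ : Set σ), φ p = π p := by
    intro p hp
    apply hom_agree φ π hφC _ _ p hp
    intro x hx
    have hx' : x ≠ z₀ := hx
    rw [hφX, if_neg hx']
  have hφP : ∀ p ∈ Ideal.span G, φ p = 0 := by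
    intro p hp
    have : Ideal.span G ≤ RingHom.ker φ := by
      rw [Ideal.span_le]
      intro g hg
      show φ g = 0
      rw [hφV g (supported_mono hsub (hG g hg)), hπ]
      exact Ideal.subset_span hg
    exact this hp
  have hφf : φ f = 0 := by
    rw [hf, map_add, map_mul, hφX, if_pos rfl, hφV a haV, hφV h hhV, div_mul_cancel₀ _ hπa,
      neg_add_cancel]
  have hφz : φ (X z₀) * π a = - π h := by
    rw [hφX, if_pos rfl, div_mul_cancel₀ _ hπa]
  -- the kernel
  have key : ∀ N : ℕ, ∀ u : ℕ → MvPolynomial σ k,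
      (∀ i, u i ∈ supported k ({z₀}ᶜ : Set σ)) →
      φ (∑ i ∈ Finset.range N, u i * X z₀ ^ i) = 0 →
      (∑ i ∈ Finset.range N, u i * X z₀ ^ i) ∈ Ideal.span G ⊔ Ideal.span {f} := by
    intro N
    induction N with
    | zero =>
      intro u _ _
      simp
    | succ m ih =>
      intro u hu hφu
      -- top coefficient
      have h1 : u m * h ^ m ∈ Ideal.span G ⊔ Ideal.span {a} := by
        -- w = ∑ u i (-h)^i a^(m-i) ∈ P
        have hw : π (∑ i ∈ Finset.range (m + 1), u i * (-h) ^ i * a ^ (m - i)) = 0 := by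
          have : π (∑ i ∈ Finset.range (m + 1), u i * (-h) ^ i * a ^ (m - i))
              = (π a) ^ m * φ (∑ i ∈ Finset.range (m + 1), u i * X z₀ ^ i) := by
            rw [map_sum, map_sum, Finset.mul_sum]
            apply Finset.sum_congr rfl
            intro i hi
            rw [Finset.mem_range] at hi
            rw [map_mul, map_mul, map_pow, map_pow, map_neg, map_mul, map_pow, hφV _ (hu i),
              ← hφz, mul_pow]
            have : π a ^ m = π a ^ i * π a ^ (m - i) := by
              rw [← pow_add]; congr 1; omega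
            rw [this]
            ring
          rw [this, hφu, mul_zero]
        rw [hπ, Finset.sum_range_succ] at hw
        have h2 : ∑ i ∈ Finset.range m, u i * (-h) ^ i * a ^ (m - i) ∈ Ideal.span {a} := by
          apply Submodule.sum_mem
          intro i hi
          rw [Finset.mem_range] at hi
          obtain ⟨l, hl⟩ : ∃ l, m - i = l + 1 := ⟨m - i - 1, by omega⟩
          rw [hl, pow_succ, ← mul_assoc]
          exact Ideal.mul_mem_left _ _ (Ideal.mem_span_singleton_self a)
        have h3 : u m * h ^ m = (-1) ^ m *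
            ((∑ i ∈ Finset.range m, u i * (-h) ^ i * a ^ (m - i) + u m * (-h) ^ m * a ^ (m - m))
              - ∑ i ∈ Finset.range m, u i * (-h) ^ i * a ^ (m - i)) := by
          rw [Nat.sub_self, pow_zero, mul_one, add_sub_cancel_left]
          have : ((-h) ^ m : MvPolynomial σ k) = (-1) ^ m * h ^ m := by rw [← mul_pow]; ring_nf
          rw [this]
          have h5 : ((-1) ^ m * (-1) ^ m : MvPolynomial σ k) = 1 := by
            rw [← mul_pow]; simp
          calc u m * h ^ m = ((-1) ^ m * (-1) ^ m) * (u m * h ^ m) := by rw [h5, one_mul]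
            _ = _ := by ring
        rw [h3]
        exact Ideal.mul_mem_left _ _ (Submodule.sub_mem _ (Ideal.mem_sup_left hw)
          (Ideal.mem_sup_right h2))
      rw [Submodule.mem_sup] at h1
      obtain ⟨p, hp, y', hy', hpy⟩ := h1
      obtain ⟨y, rfl⟩ := Ideal.mem_span_singleton.mp hy'
      obtain ⟨p₁, hp₁, c, hc⟩ := nzd_pow Z G hG hP h hh hhP (Z.erase z₀) (Finset.erase_subset _ _) m
        (u m) ⟨p, hp, y, hpy.symm⟩
      rw [← ha] at hc
      -- make p₁, c free of z₀
      have hfix := subst_fix z₀ 0 (u m) (hu m)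
      rw [hc, map_add, map_mul, subst_fix z₀ 0 a haV, ← hc] at hfix
      set p₂ := subst k z₀ 0 p₁ with hp₂
      set c₂ := subst k z₀ 0 c with hc₂
      have hp₂P : p₂ ∈ Ideal.span G := span_le_subst Z G hG z₀ hz₀ 0 hp₁
      have hc₂V : c₂ ∈ supported k ({z₀}ᶜ : Set σ) := by
        rw [hc₂]
        have : ∀ q : MvPolynomial σ k, subst k z₀ 0 q ∈ supported k ({z₀}ᶜ : Set σ) := by
          intro q
          induction q using MvPolynomial.induction_on with
          | C r =>
            have : subst k z₀ (0 : MvPolynomial σ k) (C r) = C r := by simp [subst]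
            rw [this]
            exact Subalgebra.algebraMap_mem _ r
          | add p q hp hq => rw [map_add]; exact Subalgebra.add_mem _ hp hq
          | mul_X p w hp =>
            rw [map_mul]
            apply Subalgebra.mul_mem _ hp
            by_cases hw : w = z₀
            · subst hw
              rw [subst_X]
              exact Subalgebra.zero_mem _
            · rw [subst_X_ne _ _ _ hw]
              exact X_mem_supported.mpr hw
        exact this c
      cases m with
      | zero =>
        -- φ (u 0) = 0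
        rw [Finset.sum_range_one, pow_zero, mul_one] at hφu ⊢
        rw [hφV _ (hu 0), hπ] at hφu
        exact Ideal.mem_sup_left hφu
      | succ m =>
        have hkey : ∑ i ∈ Finset.range (m + 1 + 1), u i * X z₀ ^ i
            = ∑ i ∈ Finset.range (m + 1), (u i - (if i = m then c₂ * h else 0)) * X z₀ ^ i
              + (p₂ * X z₀ ^ (m + 1) + c₂ * X z₀ ^ m * f) := by
          rw [Finset.sum_range_succ]
          have : ∑ i ∈ Finset.range (m + 1), (u i - (if i = m then c₂ * h else 0)) * X z₀ ^ i
              = ∑ i ∈ Finset.range (m + 1), u i * X z₀ ^ i - c₂ * h * X z₀ ^ m := by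
            simp only [sub_mul, Finset.sum_sub_distrib, ite_mul, zero_mul, Finset.sum_ite_eq',
              Finset.mem_range, Nat.lt_succ_self, if_true]
          rw [this, ← hfix, hf]
          ring
        have hmem : p₂ * X z₀ ^ (m + 1) + c₂ * X z₀ ^ m * f ∈ Ideal.span G ⊔ Ideal.span {f} :=
          Submodule.add_mem _ (Ideal.mem_sup_left (Ideal.mul_mem_right _ _ hp₂P))
            (Ideal.mem_sup_right (Ideal.mul_mem_left _ _ (Ideal.mem_span_singleton_self f)))
        rw [hkey]
        apply Submodule.add_mem _ _ hmem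
        apply ih
        · intro i
          apply Subalgebra.sub_mem _ (hu i)
          split_ifs
          · exact Subalgebra.mul_mem _ hc₂V hhV
          · exact Subalgebra.zero_mem _
        · have h5 : φ (p₂ * X z₀ ^ (m + 1) + c₂ * X z₀ ^ m * f) = 0 := by
            rw [map_add, map_mul, hφP _ hp₂P, zero_mul, map_mul, hφf, mul_zero, add_zero]
          rw [hkey, map_add, h5, add_zero] at hφu
          exact hφu
  have hker : Ideal.span G ⊔ Ideal.span {f} = RingHom.ker φ := by
    apply le_antisymm
    · apply sup_le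
      · intro p hp; exact hφP p hp
      · rw [Ideal.span_singleton_le_iff_mem]; exact hφf
    · intro g hg
      obtain ⟨N, u, hu, rfl⟩ := exists_rep (k := k) z₀ g
      exact key N u hu hg
  rw [hker]
  exact RingHom.ker_isPrime φ

end key

end Pool.Agent.V5LSS
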